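import Mathlib
import Pool.Agent.Q127.ET.Spec

/-!
# Job ET1b: the local factor is tempered
-/

set_option autoImplicit false

open Finset

namespace Pool.Agent.Q237.ET

open Pool.Agent.Q127.ET

/-- convolution of two geometric sequences -/
noncomputable def cc (a b : ℂ) (j : ℕ) : ℂ := ∑ i ∈ range (j + 1), a ^ i * b ^ (j - i)

lemma cc_succ (a b : ℂ) (j : ℕ) : cc a b (j + 1) = a * cc a b j + b ^ (j + 1) := by
  unfold cc
  rw [sum_range_succ', mul_sum]
  congr 1
  · apply sum_congr rfl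
    intro i _
    rw [show j + 1 - (i + 1) = j - i by omega]
    ring
  · simp

lemma cc_rec {a b : ℂ} (hab : a * b = 1) (j : ℕ) :
    cc a b (j + 2) = (a + b) * cc a b (j + 1) - cc a b j := by
  have h1 := cc_succ a b (j + 1)
  have h2 := cc_succ a b j
  rw [h1, h2]
  have h3 : b ^ (j + 1 + 1) = b ^ (j + 1) * b := pow_succ _ _
  rw [h3]
  linear_combination (-cc a b j) * hab

lemma cc_eq {a b : ℂ} {y : ℝ} (hab : a * b = 1) (hy : a + b = y) :
    ∀ j : ℕ, ((Uc y (j + 1) : ℝ) : ℂ) = cc a b j ∧ ((Uc y (j + 2) : ℝ) : ℂ) = cc a b (j + 1)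
  | 0 => by
    constructor
    · simp [Uc, cc]
    · simp only [Uc]
      rw [cc_succ]
      simp [cc, hy]
  | j + 1 => by
    have h := cc_eq hab hy j
    refine ⟨h.2, ?_⟩
    have e : Uc y (j + 1 + 2) = y * Uc y (j + 1 + 1) - Uc y (j + 1) := rfl
    rw [e, cc_rec hab, hy, ← h.1, ← h.2]
    push_cast
    ring

lemma summable_geo {a z : ℂ} (ha : ‖a‖ = 1) (hz : ‖z‖ < 1) : Summable (fun n : ℕ => ‖(a * z) ^ n‖) := by
  have h : ‖a * z‖ < 1 := by rw [norm_mul, ha, one_mul]; exact hz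
  simpa [norm_pow] using summable_geometric_of_lt_one (norm_nonneg _) h

lemma hasSum_cc {a b z : ℂ} (ha : ‖a‖ = 1) (hb : ‖b‖ = 1) (hz : ‖z‖ < 1) :
    HasSum (fun j : ℕ => cc a b j * z ^ j) ((1 - a * z)⁻¹ * (1 - b * z)⁻¹) := by
  have h1 : ‖a * z‖ < 1 := by rw [norm_mul, ha, one_mul]; exact hz
  have h2 : ‖b * z‖ < 1 := by rw [norm_mul, hb, one_mul]; exact hz
  have s1 := summable_geo ha hz
  have s2 := summable_geo hb hz
  have h3 := tsum_mul_tsum_eq_tsum_sum_range_of_summable_norm s1 s2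
  have h4 := (summable_norm_sum_mul_range_of_summable_norm s1 s2).of_norm
  rw [(hasSum_geometric_of_norm_lt_one h1).tsum_eq, (hasSum_geometric_of_norm_lt_one h2).tsum_eq] at h3
  have e : ∀ j : ℕ, cc a b j * z ^ j = ∑ k ∈ range (j + 1), (a * z) ^ k * (b * z) ^ (j - k) := by
    intro j
    unfold cc
    rw [sum_mul]
    apply sum_congr rfl
    intro i hi
    have : i ≤ j := by rw [mem_range] at hi; omega
    rw [mul_pow, mul_pow]
    have e2 : z ^ j = z ^ i * z ^ (j - i) := by rw [← pow_add]; congr 1; omega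
    rw [e2]
    ring
  have h5 := h4.hasSum
  rw [← h3] at h5
  exact h5.congr_fun fun j => e j

/-- the series of the moved pair -/
lemma hasSum_hl {m : ℕ} {x : ℝ} {a b z : ℂ} (hab : a * b = 1) (hy : a + b = ((y0 m + x : ℝ) : ℂ))
    (ha : ‖a‖ = 1) (hb : ‖b‖ = 1) (hz : ‖z‖ < 1) :
    HasSum (fun j : ℕ => ((hl m x j : ℝ) : ℂ) * z ^ j) (1 + x * z * ((1 - a * z)⁻¹ * (1 - b * z)⁻¹)) ∧
    Summable (fun j : ℕ => ‖((hl m x j : ℝ) : ℂ) * z ^ j‖) := by
  have e : ∀ j : ℕ, ((hl m x (j + 1) : ℝ) : ℂ) * z ^ (j + 1) = x * z * (cc a b j * z ^ j) := by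
    intro j
    have : hl m x (j + 1) = x * Uc (y0 m + x) (j + 1) := by
      unfold hl
      rw [if_neg (by omega)]
    rw [this]
    push_cast
    have h2 := (cc_eq (y := y0 m + x) hab hy j).1
    rw [h2]
    ring
  have h1 := hasSum_cc ha hb hz
  have h2 := (h1.mul_left ((x : ℂ) * z))
  constructor
  · rw [← hasSum_nat_add_iff' 1]
    have h0 : ∑ i ∈ range 1, ((hl m x i : ℝ) : ℂ) * z ^ i = 1 := by simp [hl]
    rw [h0]
    have e2 : 1 + (x : ℂ) * z * ((1 - a * z)⁻¹ * (1 - b * z)⁻¹) - 1 = x * z * ((1 - a * z)⁻¹ * (1 - b * z)⁻¹) := by ring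
    rw [e2]
    exact h2.congr_fun fun j => e j
  · rw [← summable_nat_add_iff 1]
    have h3 : Summable (fun j : ℕ => ‖(x : ℂ) * z * (cc a b j * z ^ j)‖) := by
      have s1 := summable_geo ha hz
      have s2 := summable_geo hb hz
      have h4 := (summable_norm_sum_mul_range_of_summable_norm s1 s2)
      have h5 := h4.mul_left ‖(x : ℂ) * z‖
      refine h5.congr fun j => ?_
      rw [← norm_mul]
      congr 1
      congr 1
      unfold cc
      rw [sum_mul]
      apply sum_congr rfl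
      intro i hi
      have : i ≤ j := by rw [mem_range] at hi; omega
      rw [mul_pow, mul_pow]
      have e2 : z ^ j = z ^ i * z ^ (j - i) := by rw [← pow_add]; congr 1; omega
      rw [e2]
      ring
    exact h3.congr fun j => by rw [e j]

/-- the geometric series in `z ^ d` -/
lemma hasSum_gd {d : ℕ} (hd : 0 < d) {z : ℂ} (hz : ‖z‖ < 1) :
    HasSum (fun n : ℕ => (if d ∣ n then (1 : ℂ) else 0) * z ^ n) (1 - z ^ d)⁻¹ ∧
    Summable (fun n : ℕ => ‖(if d ∣ n then (1 : ℂ) else 0) * z ^ n‖) := by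
  have hzd : ‖z ^ d‖ < 1 := by
    rw [norm_pow]
    exact pow_lt_one₀ (norm_nonneg _) hz hd.ne'
  constructor
  · have hinj : Function.Injective (fun i : ℕ => d * i) := fun i j h => Nat.eq_of_mul_eq_mul_left hd h
    rw [← hinj.hasSum_iff]
    · refine (hasSum_geometric_of_norm_lt_one hzd).congr_fun fun i => ?_
      simp only [Function.comp_apply]
      rw [if_pos (dvd_mul_right _ _), one_mul, pow_mul]
    · intro n hn
      rw [if_neg, zero_mul]
      rintro ⟨k, rfl⟩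
      exact hn ⟨k, rfl⟩
  · refine Summable.of_nonneg_of_le (fun n => norm_nonneg _) (fun n => ?_)
      (summable_geometric_of_lt_one (norm_nonneg z) hz)
    rw [norm_mul, norm_pow]
    have h : ‖(if d ∣ n then (1 : ℂ) else 0)‖ ≤ 1 := by split_ifs <;> simp
    calc _ ≤ 1 * ‖z‖ ^ n := by gcongr
      _ = _ := one_mul _

lemma Al_conv (m : ℕ) (x : ℝ) (z : ℂ) (k : ℕ) : ((Al m x k : ℝ) : ℂ) * z ^ k =
    ∑ n ∈ range (k + 1), ((if (4 * m + 3) ∣ n then (1 : ℂ) else 0) * z ^ n) *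
      (((hl m x (k - n) : ℝ) : ℂ) * z ^ (k - n)) := by
  have h1 : ∀ n ∈ range (k + 1), ((if (4 * m + 3) ∣ n then (1 : ℂ) else 0) * z ^ n) *
      (((hl m x (k - n) : ℝ) : ℂ) * z ^ (k - n)) =
      (if (4 * m + 3) ∣ n then ((hl m x (k - n) : ℝ) : ℂ) else 0) * z ^ k := by
    intro n hn
    have : n ≤ k := by rw [mem_range] at hn; omega
    have e2 : z ^ k = z ^ n * z ^ (k - n) := by rw [← pow_add]; congr 1; omega
    rw [e2]
    split_ifs <;> ring
  rw [sum_congr rfl h1, ← sum_mul]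
  congr 1
  rw [← sum_filter]
  unfold Al
  push_cast
  symm
  refine sum_nbij' (fun n => n / (4 * m + 3)) (fun i => i * (4 * m + 3)) ?_ ?_ ?_ ?_ ?_
  · intro n hn
    rw [mem_filter, mem_range] at hn
    rw [mem_range]
    have := Nat.div_le_div_right (c := 4 * m + 3) (show n ≤ k by omega)
    omega
  · intro i hi
    rw [mem_range] at hi
    rw [mem_filter, mem_range]
    refine ⟨?_, dvd_mul_left _ _⟩
    have h2 : i ≤ k / (4 * m + 3) := by omega
    have := (Nat.le_div_iff_mul_le (by omega : 0 < 4 * m + 3)).1 h2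
    omega
  · intro n hn
    rw [mem_filter] at hn
    exact Nat.div_mul_cancel hn.2
  · intro i _
    exact Nat.mul_div_cancel _ (by omega)
  · intro n hn
    rw [mem_filter] at hn
    rw [Nat.div_mul_cancel hn.2]

lemma hasSum_Al {m : ℕ} {x : ℝ} {a b z : ℂ} (hab : a * b = 1) (hy : a + b = ((y0 m + x : ℝ) : ℂ))
    (ha : ‖a‖ = 1) (hb : ‖b‖ = 1) (hz : ‖z‖ < 1) :
    HasSum (fun k : ℕ => ((Al m x k : ℝ) : ℂ) * z ^ k)
      ((1 - z ^ (4 * m + 3))⁻¹ * (1 + x * z * ((1 - a * z)⁻¹ * (1 - b * z)⁻¹))) := by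
  obtain ⟨g1, g2⟩ := hasSum_gd (d := 4 * m + 3) (by omega) hz
  obtain ⟨f1, f2⟩ := hasSum_hl hab hy ha hb hz
  have h3 := tsum_mul_tsum_eq_tsum_sum_range_of_summable_norm g2 f2
  have h4 := (summable_norm_sum_mul_range_of_summable_norm g2 f2).of_norm.hasSum
  rw [← h3, g1.tsum_eq, f1.tsum_eq] at h4
  exact h4.congr_fun fun k => Al_conv m x z k

lemma y0_eq (m : ℕ) : y0 m = -(2 * Real.sin (Real.pi / (2 * (4 * m + 3)))) := by
  unfold y0
  have h : 2 * Real.pi * (m + 1) / (4 * m + 3) = Real.pi / (2 * (4 * m + 3)) + Real.pi / 2 := by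
    field_simp
    ring
  rw [h, Real.cos_add_pi_div_two]
  ring

lemma abs_y0 (m : ℕ) : |y0 m| ≤ 1 := by
  have hm : (0 : ℝ) ≤ m := Nat.cast_nonneg m
  have hpi := Real.pi_pos
  have h1 : Real.pi / (2 * (4 * m + 3)) ≤ Real.pi / 6 := by
    apply div_le_div_of_nonneg_left hpi.le (by norm_num)
    linarith
  have h0 : 0 ≤ Real.pi / (2 * (4 * (m : ℝ) + 3)) := by positivity
  have h2 : Real.sin (Real.pi / (2 * (4 * m + 3))) ≤ 1 / 2 := by
    rw [← Real.sin_pi_div_six]
    apply Real.sin_le_sin_of_le_of_le_pi_div_two _ _ h1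
    · linarith
    · linarith
  have h3 : 0 ≤ Real.sin (Real.pi / (2 * (4 * (m : ℝ) + 3))) := by
    apply Real.sin_nonneg_of_nonneg_of_le_pi h0
    linarith
  rw [y0_eq, abs_neg, abs_of_nonneg (by linarith)]
  linarith

/-- the local roots -/
noncomputable def rt (m : ℕ) (ψ : ℝ) (j : Fin (4 * m + 3)) : ℂ :=
  if (j : ℕ) = m + 1 then Complex.exp (ψ * Complex.I) else
    if (j : ℕ) = 3 * m + 2 then Complex.exp (-(ψ * Complex.I)) else
      Complex.exp (2 * Real.pi * Complex.I / ((4 * m + 3 : ℕ) : ℂ)) ^ (j : ℕ)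

lemma prod_swap {d : ℕ} (f g : Fin d → ℂ) (a b : Fin d) (hab : a ≠ b) (h : ∀ j, j ≠ a → j ≠ b → f j = g j) :
    (∏ j, f j) * (g a * g b) = (∏ j, g j) * (f a * f b) := by
  classical
  have h1 : ∀ F : Fin d → ℂ, ∏ j, F j = F a * (F b * ∏ j ∈ (univ.erase a).erase b, F j) := by
    intro F
    rw [← mul_prod_erase univ F (mem_univ a), ← mul_prod_erase (univ.erase a) F (mem_erase.2 ⟨hab.symm, mem_univ b⟩)]
  rw [h1 f, h1 g]
  have h2 : ∏ j ∈ (univ.erase a).erase b, f j = ∏ j ∈ (univ.erase a).erase b, g j := by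
    apply prod_congr rfl
    intro j hj
    rw [mem_erase, mem_erase] at hj
    exact h j hj.2.1 hj.1
  rw [h2]
  ring

theorem loc2 : S_Loc2 := by
  intro m x hx
  have hy : |y0 m + x| ≤ 2 := (abs_add_le _ _).trans (by have := abs_y0 m; linarith)
  rw [abs_le] at hy
  obtain ⟨ψ, hψ⟩ : ∃ ψ : ℝ, 2 * Real.cos ψ = y0 m + x :=
    ⟨Real.arccos ((y0 m + x) / 2), by rw [Real.cos_arccos (by linarith) (by linarith)]; ring⟩
  obtain ⟨d, hd⟩ : ∃ d : ℕ, d = 4 * m + 3 := ⟨_, rfl⟩
  have hd0 : 0 < d := by omega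
  obtain ⟨ζ, hζd⟩ : ∃ ζ : ℂ, ζ = Complex.exp (2 * Real.pi * Complex.I / ((4 * m + 3 : ℕ) : ℂ)) := ⟨_, rfl⟩
  have hζ : IsPrimitiveRoot ζ (4 * m + 3) := by
    rw [hζd]
    exact Complex.isPrimitiveRoot_exp _ (by omega)
  have hζn : ‖ζ‖ = 1 := hζ.norm'_eq_one (by omega)
  have hζ1 : ζ ^ (4 * m + 3) = 1 := hζ.pow_eq_one
  have hζ0 : ζ ≠ 0 := hζ.ne_zero (by omega)
  obtain ⟨a, ha⟩ : ∃ a : ℂ, a = Complex.exp (ψ * Complex.I) := ⟨_, rfl⟩
  obtain ⟨b, hb⟩ : ∃ b : ℂ, b = Complex.exp (-(ψ * Complex.I)) := ⟨_, rfl⟩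
  have hab : a * b = 1 := by rw [ha, hb, ← Complex.exp_add, add_neg_cancel, Complex.exp_zero]
  have han : ‖a‖ = 1 := by rw [ha]; exact Complex.norm_exp_ofReal_mul_I ψ
  have hbn : ‖b‖ = 1 := by
    have := congrArg norm hab
    rw [norm_mul, han, one_mul, norm_one] at this
    exact this
  have hsum : a + b = ((y0 m + x : ℝ) : ℂ) := by
    rw [← hψ, ha, hb]
    push_cast
    rw [Complex.two_cos, neg_mul]
  have hconj : starRingEnd ℂ a = b := by
    rw [ha, hb, ← Complex.exp_conj]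
    simp
  have hconj' : starRingEnd ℂ b = a := by rw [← hconj, Complex.conj_conj]
  have hconjζ : starRingEnd ℂ ζ = ζ⁻¹ := by
    rw [Complex.inv_def, Complex.normSq_eq_norm_sq, hζn]
    simp
  -- the two special indices
  obtain ⟨ja, hja⟩ : ∃ ja : Fin (4 * m + 3), (ja : ℕ) = m + 1 := ⟨⟨m + 1, by omega⟩, rfl⟩
  obtain ⟨jb, hjb⟩ : ∃ jb : Fin (4 * m + 3), (jb : ℕ) = 3 * m + 2 := ⟨⟨3 * m + 2, by omega⟩, rfl⟩
  have hjab : ja ≠ jb := by intro h; rw [h, hjb] at hja; omega
  have hra : rt m ψ ja = a := by unfold rt; rw [if_pos hja, ha]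
  have hrb : rt m ψ jb = b := by unfold rt; rw [if_neg (by omega), if_pos hjb, hb]
  have hrj : ∀ j, j ≠ ja → j ≠ jb → rt m ψ j = ζ ^ (j : ℕ) := by
    intro j h1 h2
    unfold rt
    rw [if_neg, if_neg, hζd]
    · intro h; exact h2 (Fin.ext (by rw [h, hjb]))
    · intro h; exact h1 (Fin.ext (by rw [h, hja]))
  have hζab : ζ ^ (m + 1) * ζ ^ (3 * m + 2) = 1 := by
    rw [← pow_add, show m + 1 + (3 * m + 2) = 4 * m + 3 by ring, hζ1]
  have hprodz : ∀ z : ℂ, (∏ j : Fin (4 * m + 3), (1 - rt m ψ j * z)) * ((1 - ζ ^ (m + 1) * z) * (1 - ζ ^ (3 * m + 2) * z)) =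
      (1 - z ^ (4 * m + 3)) * ((1 - a * z) * (1 - b * z)) := by
    intro z
    have h := prod_swap (fun j => 1 - rt m ψ j * z) (fun j => 1 - ζ ^ (j : ℕ) * z) ja jb hjab
      (fun j h1 h2 => by simp only [hrj j h1 h2])
    simp only [hra, hrb, hja, hjb] at h
    rw [h]
    congr 1
    have h2 : ∏ j : Fin (4 * m + 3), (1 - ζ ^ (j : ℕ) * z) = ∏ j ∈ range (4 * m + 3), (1 - ζ ^ j * z) :=
      Fin.prod_univ_eq_prod_range (fun j => 1 - ζ ^ j * z) _
    rw [h2]
    have h3 := hζ.pow_sub_pow_eq_prod_sub_mul 1 z (by omega)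
    rw [one_pow] at h3
    rw [h3]
    symm
    have hroots := hζ.nthRoots_eq (one_pow (4 * m + 3))
    simp only [mul_one] at hroots
    have hfin : Polynomial.nthRootsFinset (4 * m + 3) (1 : ℂ) = (range (4 * m + 3)).image (fun j => ζ ^ j) := by
      classical
      ext w
      rw [Polynomial.nthRootsFinset_def, Multiset.mem_toFinset, hroots, Multiset.mem_map, mem_image]
      simp only [Multiset.mem_range, mem_range]
    rw [hfin, prod_image]
    intro i hi j hj hij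
    rw [coe_range, Set.mem_Iio] at hi hj
    exact hζ.pow_inj hi hj hij
  refine ⟨rt m ψ, ?_, ?_, ?_, ?_⟩
  · intro j
    by_cases h1 : j = ja
    · rw [h1, hra, han]
    · by_cases h2 : j = jb
      · rw [h2, hrb, hbn]
      · rw [hrj j h1 h2, norm_pow, hζn, one_pow]
  · have h := prod_swap (rt m ψ) (fun j => ζ ^ (j : ℕ)) ja jb hjab hrj
    simp only [hra, hrb, hja, hjb] at h
    rw [hζab, hab, mul_one, mul_one] at h
    rw [h]
    have h2 : ∏ j : Fin (4 * m + 3), ζ ^ (j : ℕ) = ∏ j ∈ range (4 * m + 3), ζ ^ j :=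
      Fin.prod_univ_eq_prod_range (fun j => ζ ^ j) _
    rw [h2, prod_pow_eq_pow_sum, sum_range_id]
    have h3 : (4 * m + 3) * (4 * m + 3 - 1) / 2 = (4 * m + 3) * (2 * m + 1) := by
      rw [show 4 * m + 3 - 1 = 2 * (2 * m + 1) by omega]
      rw [show (4 * m + 3) * (2 * (2 * m + 1)) = 2 * ((4 * m + 3) * (2 * m + 1)) by ring]
      exact Nat.mul_div_cancel_left _ (by norm_num)
    rw [h3, pow_mul, hζ1, one_pow]
  · intro z
    haveI : NeZero (4 * m + 3) := ⟨by omega⟩
    rw [← Equiv.prod_comp (Equiv.neg (Fin (4 * m + 3)))]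
    apply prod_congr rfl
    intro j _
    congr 2
    simp only [Equiv.neg_apply]
    have hval : ((-j : Fin (4 * m + 3)) : ℕ) = (4 * m + 3 - (j : ℕ)) % (4 * m + 3) := Fin.val_neg' j
    have hjlt := j.2
    by_cases h1 : j = ja
    · have h2 : -j = jb := by
        apply Fin.ext
        rw [hval, h1, hja, hjb, show 4 * m + 3 - (m + 1) = 3 * m + 2 by omega]
        exact Nat.mod_eq_of_lt (by omega)
      rw [h2, hrb, h1, hra, hconj]
    · by_cases h2 : j = jb
      · have h3 : -j = ja := by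
          apply Fin.ext
          rw [hval, h2, hja, hjb, show 4 * m + 3 - (3 * m + 2) = m + 1 by omega]
          exact Nat.mod_eq_of_lt (by omega)
        rw [h3, hra, h2, hrb, hconj']
      · have h3 : -j ≠ ja := by
          intro h
          apply h2
          rw [← neg_neg j, h]
          apply Fin.ext
          have : ((-ja : Fin (4 * m + 3)) : ℕ) = (4 * m + 3 - (ja : ℕ)) % (4 * m + 3) := Fin.val_neg' ja
          rw [this, hja, hjb, show 4 * m + 3 - (m + 1) = 3 * m + 2 by omega]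
          exact Nat.mod_eq_of_lt (by omega)
        have h4 : -j ≠ jb := by
          intro h
          apply h1
          rw [← neg_neg j, h]
          apply Fin.ext
          have : ((-jb : Fin (4 * m + 3)) : ℕ) = (4 * m + 3 - (jb : ℕ)) % (4 * m + 3) := Fin.val_neg' jb
          rw [this, hja, hjb, show 4 * m + 3 - (3 * m + 2) = m + 1 by omega]
          exact Nat.mod_eq_of_lt (by omega)
        rw [hrj _ h3 h4, hrj _ h1 h2, map_pow, hconjζ, hval]
        have h5 : ζ ^ ((4 * m + 3 - (j : ℕ)) % (4 * m + 3)) = ζ ^ (4 * m + 3 - (j : ℕ)) := by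
          conv_rhs => rw [← Nat.mod_add_div (4 * m + 3 - (j : ℕ)) (4 * m + 3), pow_add, pow_mul, hζ1, one_pow, mul_one]
        rw [h5, inv_pow]
        apply eq_inv_of_mul_eq_one_left
        rw [← pow_add, Nat.sub_add_cancel hjlt.le, hζ1]
  · intro z hz
    have h := hasSum_Al (m := m) (x := x) hab hsum han hbn hz
    have hna : 1 - a * z ≠ 0 := by
      intro h0
      have : ‖a * z‖ = 1 := by rw [← sub_eq_zero.1 h0, norm_one]
      rw [norm_mul, han, one_mul] at this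
      linarith
    have hnb : 1 - b * z ≠ 0 := by
      intro h0
      have : ‖b * z‖ = 1 := by rw [← sub_eq_zero.1 h0, norm_one]
      rw [norm_mul, hbn, one_mul] at this
      linarith
    have hnz : ∀ k : ℕ, 1 - ζ ^ k * z ≠ 0 := by
      intro k h0
      have : ‖ζ ^ k * z‖ = 1 := by rw [← sub_eq_zero.1 h0, norm_one]
      rw [norm_mul, norm_pow, hζn, one_pow, one_mul] at this
      linarith
    have hnd : 1 - z ^ (4 * m + 3) ≠ 0 := by
      intro h0
      have : ‖z ^ (4 * m + 3)‖ = 1 := by rw [← sub_eq_zero.1 h0, norm_one]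
      rw [norm_pow] at this
      have h1 : ‖z‖ ^ (4 * m + 3) < 1 := pow_lt_one₀ (norm_nonneg _) hz (by omega)
      linarith
    have hk := hprodz z
    -- the pair of `ζ`
    have hy0 : ζ ^ (m + 1) + ζ ^ (3 * m + 2) = ((y0 m : ℝ) : ℂ) := by
      have e1 : ζ ^ (m + 1) = Complex.exp (((2 * Real.pi * (m + 1) / (4 * m + 3) : ℝ) : ℂ) * Complex.I) := by
        rw [hζd, ← Complex.exp_nat_mul]
        congr 1
        push_cast
        ring
      have e2 : ζ ^ (3 * m + 2) = Complex.exp (-(((2 * Real.pi * (m + 1) / (4 * m + 3) : ℝ) : ℂ)) * Complex.I) := by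
        have : ζ ^ (3 * m + 2) = (ζ ^ (m + 1))⁻¹ := by
          apply eq_inv_of_mul_eq_one_left
          rw [mul_comm]
          exact hζab
        rw [this, e1, ← Complex.exp_neg, neg_mul]
      rw [e1, e2]
      unfold y0
      push_cast
      rw [Complex.two_cos]
    have hfac : (1 - ζ ^ (m + 1) * z) * (1 - ζ ^ (3 * m + 2) * z) = 1 - y0 m * z + z ^ 2 := by
      linear_combination (-z) * hy0 + z ^ 2 * hζab
    have hfac2 : (1 - a * z) * (1 - b * z) = 1 - ((y0 m + x : ℝ) : ℂ) * z + z ^ 2 := by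
      linear_combination (-z) * hsum + z ^ 2 * hab
    have hgoal : (∏ j, (1 - rt m ψ j * z))⁻¹ =
        (1 - z ^ (4 * m + 3))⁻¹ * (1 + x * z * ((1 - a * z)⁻¹ * (1 - b * z)⁻¹)) := by
      have hne : ∏ j, (1 - rt m ψ j * z) ≠ 0 := by
        intro h0
        rw [h0, zero_mul] at hk
        have := hk.symm
        rcases mul_eq_zero.1 this with h1 | h1
        · exact hnd h1
        · rcases mul_eq_zero.1 h1 with h2 | h2
          · exact hna h2
          · exact hnb h2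
      rw [hfac] at hk
      rw [inv_eq_iff_eq_inv, mul_inv, inv_inv]
      have h7 : 1 + x * z * ((1 - a * z)⁻¹ * (1 - b * z)⁻¹) =
          (1 - y0 m * z + z ^ 2) * ((1 - a * z) * (1 - b * z))⁻¹ := by
        rw [← mul_inv]
        have hN : (1 - a * z) * (1 - b * z) ≠ 0 := mul_ne_zero hna hnb
        have h9 : (1 - a * z) * (1 - b * z) + x * z = 1 - y0 m * z + z ^ 2 := by
          rw [hfac2]
          push_cast
          ring
        rw [← h9, add_mul, mul_inv_cancel₀ hN]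
      have h8 : (1 - y0 m * z + z ^ 2 : ℂ) ≠ 0 := by
        rw [← hfac]
        exact mul_ne_zero (hnz _) (hnz _)
      rw [h7, mul_inv, inv_inv, eq_comm]
      rw [← mul_left_inj' h8, hk]
      field_simp
    rw [hgoal]
    exact h

end Pool.Agent.Q237.ET
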