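import Mathlib
import Pool.Agent.Q237.ET.Loc2
import Pool.Agent.Helper112.Arith

/-!
# Job ET5, first part: the Euler product with coefficients `atc m x`
-/

set_option autoImplicit false

open Finset

namespace Pool.Agent.Q237.ET

open Pool.Agent.Q127.ET

/-- a pair on the unit circle with a given sum -/
lemma exists_pair {y : ℝ} (hy : |y| ≤ 2) :
    ∃ a b : ℂ, a * b = 1 ∧ a + b = (y : ℂ) ∧ ‖a‖ = 1 ∧ ‖b‖ = 1 := by
  rw [abs_le] at hy
  obtain ⟨ψ, hψ⟩ : ∃ ψ : ℝ, 2 * Real.cos ψ = y :=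
    ⟨Real.arccos (y / 2), by rw [Real.cos_arccos (by linarith) (by linarith)]; ring⟩
  refine ⟨Complex.exp (ψ * Complex.I), Complex.exp (-(ψ * Complex.I)), ?_, ?_, ?_, ?_⟩
  · rw [← Complex.exp_add, add_neg_cancel, Complex.exp_zero]
  · rw [← hψ]
    push_cast
    rw [Complex.two_cos, neg_mul]
  · exact Complex.norm_exp_ofReal_mul_I ψ
  · have : -((ψ : ℂ) * Complex.I) = ((-ψ : ℝ) : ℂ) * Complex.I := by push_cast; ring
    rw [this]
    exact Complex.norm_exp_ofReal_mul_I _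

lemma abs_Uc {y : ℝ} (hy : |y| ≤ 2) (j : ℕ) : |Uc y j| ≤ j := by
  rcases j with _ | j
  · simp [Uc]
  · obtain ⟨a, b, hab, hsum, ha, hb⟩ := exists_pair hy
    have h := (cc_eq hab hsum j).1
    have h2 : ‖cc a b j‖ ≤ (j : ℝ) + 1 := by
      unfold cc
      refine (norm_sum_le _ _).trans ?_
      have : ∀ i ∈ range (j + 1), ‖a ^ i * b ^ (j - i)‖ ≤ 1 := by
        intro i _
        rw [norm_mul, norm_pow, norm_pow, ha, hb, one_pow, one_pow, one_mul]
      refine (sum_le_sum this).trans ?_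
      simp
    rw [← h, Complex.norm_real, Real.norm_eq_abs] at h2
    push_cast
    exact h2

lemma Al_zero (m : ℕ) (x : ℝ) : Al m x 0 = 1 := by simp [Al, hl]

lemma abs_Al {m : ℕ} {x : ℝ} (hx : |x| ≤ 1) (k : ℕ) : |Al m x k| ≤ ((k : ℝ) + 1) ^ 2 := by
  have hy : |y0 m + x| ≤ 2 := (abs_add_le _ _).trans (by have := abs_y0 m; linarith)
  have h1 : ∀ j ≤ k, |hl m x j| ≤ (k : ℝ) + 1 := by
    intro j hj
    have hjk : (j : ℝ) ≤ k := by exact_mod_cast hj
    have hk : (0 : ℝ) ≤ k := Nat.cast_nonneg k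
    unfold hl
    split_ifs with h
    · rw [abs_one]; linarith
    · rw [abs_mul]
      have := abs_Uc hy j
      calc |x| * |Uc (y0 m + x) j| ≤ 1 * j := by gcongr
        _ ≤ _ := by linarith
  unfold Al
  refine (abs_sum_le_sum_abs _ _).trans ?_
  refine (sum_le_sum fun i _ => h1 (k - i * (4 * m + 3)) (Nat.sub_le _ _)).trans ?_
  rw [sum_const, card_range, nsmul_eq_mul]
  push_cast
  have h2 : ((k / (4 * m + 3) : ℕ) : ℝ) ≤ k := by exact_mod_cast Nat.div_le_self _ _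
  have hk : (0 : ℝ) ≤ k := Nat.cast_nonneg k
  nlinarith

section

variable {m : ℕ} {x : ℕ → ℝ}

lemma atc_zero : atc m x 0 = 0 := by simp [atc]

lemma atc_one : atc m x 1 = 1 := by simp [atc]

lemma atc_mul {a b : ℕ} (hab : Nat.Coprime a b) : atc m x (a * b) = atc m x a * atc m x b := by
  rcases Nat.eq_zero_or_pos a with h | ha
  · subst h; rw [zero_mul, atc_zero, zero_mul]
  rcases Nat.eq_zero_or_pos b with h | hb
  · subst h; rw [mul_zero, atc_zero, mul_zero]
  unfold atc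
  rw [if_neg (Nat.mul_pos ha hb).ne', if_neg ha.ne', if_neg hb.ne', Nat.Coprime.primeFactors_mul hab,
    prod_union hab.disjoint_primeFactors]
  congr 1
  · apply prod_congr rfl
    intro p hp
    rw [Nat.factorization_mul ha.ne' hb.ne', Finsupp.add_apply]
    have : b.factorization p = 0 := by
      apply Nat.factorization_eq_zero_of_not_dvd
      intro h
      have hpp := Nat.prime_of_mem_primeFactors hp
      have := Nat.dvd_gcd (Nat.dvd_of_mem_primeFactors hp) h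
      rw [hab.gcd_eq_one] at this
      exact hpp.one_lt.ne' (Nat.dvd_one.1 this)
    rw [this, add_zero]
  · apply prod_congr rfl
    intro p hp
    rw [Nat.factorization_mul ha.ne' hb.ne', Finsupp.add_apply]
    have : a.factorization p = 0 := by
      apply Nat.factorization_eq_zero_of_not_dvd
      intro h
      have hpp := Nat.prime_of_mem_primeFactors hp
      have := Nat.dvd_gcd h (Nat.dvd_of_mem_primeFactors hp)
      rw [hab.gcd_eq_one] at this
      exact hpp.one_lt.ne' (Nat.dvd_one.1 this)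
    rw [this, zero_add]

lemma atc_prime_pow {p : ℕ} (hp : p.Prime) (k : ℕ) : atc m x (p ^ k) = Al m (x p) k := by
  rcases Nat.eq_zero_or_pos k with h | hk
  · subst h; rw [pow_zero, atc_one, Al_zero]
  · unfold atc
    rw [if_neg (pow_pos hp.pos k).ne', Nat.primeFactors_prime_pow hk.ne' hp, prod_singleton,
      hp.factorization_pow, Finsupp.single_eq_same]

lemma abs_atc (hx : ∀ p, |x p| ≤ 1) {n : ℕ} (hn : 1 ≤ n) :
    |atc m x n| ≤ (n.divisors.card : ℝ) ^ 2 := by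
  unfold atc
  rw [if_neg (by omega), Nat.card_divisors (by omega), abs_prod]
  push_cast
  rw [← prod_pow]
  exact prod_le_prod (fun _ _ => abs_nonneg _) fun p _ => abs_Al (hx p) _

/-- complex coefficients -/
noncomputable def fa (m : ℕ) (x : ℕ → ℝ) (n : ℕ) : ℂ := ((atc m x n : ℝ) : ℂ)

lemma fa_ram (hx : ∀ p, |x p| ≤ 1) {ε : ℝ} (hε : 0 < ε) :
    ∃ C : ℝ, 0 < C ∧ ∀ n : ℕ, 1 ≤ n → ‖fa m x n‖ ≤ C * (n : ℝ) ^ ε := by
  obtain ⟨C, hC0, hC⟩ := Pool.Agent.Helper112.divisor_bound (ε / 2) (by positivity)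
  refine ⟨C ^ 2, by positivity, fun n hn => ?_⟩
  unfold fa
  rw [Complex.norm_real, Real.norm_eq_abs]
  refine (abs_atc hx hn).trans ?_
  have h1 := hC n hn
  have h2 : (C * (n : ℝ) ^ (ε / 2)) ^ 2 = C ^ 2 * (n : ℝ) ^ ε := by
    rw [mul_pow, ← Real.rpow_natCast ((n : ℝ) ^ (ε / 2)), ← Real.rpow_mul (Nat.cast_nonneg n)]
    congr 2
    push_cast
    ring
  rw [← h2]
  gcongr

lemma fa_summable (hx : ∀ p, |x p| ≤ 1) {s : ℂ} (hs : 1 < s.re) : LSeriesSummable (fa m x) s := by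
  obtain ⟨C, hC0, hC⟩ := fa_ram (m := m) hx (show 0 < (s.re - 1) / 2 by linarith)
  apply LSeriesSummable_of_le_const_mul_rpow (x := (s.re - 1) / 2 + 1) (by linarith)
  refine ⟨C, fun n hn => ?_⟩
  have := hC n (Nat.pos_of_ne_zero hn)
  rw [show (s.re - 1) / 2 + 1 - 1 = (s.re - 1) / 2 by ring]
  exact this

/-- local roots at `p` -/
noncomputable def lr (m : ℕ) (x : ℕ → ℝ) (p : ℕ) : Fin (4 * m + 3) → ℂ := by
  classical exact if h : |x p| ≤ 1 then Classical.choose (loc2 m (x p) h) else fun _ => 0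

lemma lr_spec (hx : ∀ p, |x p| ≤ 1) (p : ℕ) : (∀ j, ‖lr m x p j‖ = 1) ∧
    ∀ z : ℂ, ‖z‖ < 1 → HasSum (fun k : ℕ => ((Al m (x p) k : ℝ) : ℂ) * z ^ k) (∏ j, (1 - lr m x p j * z))⁻¹ := by
  unfold lr
  rw [dif_pos (hx p)]
  have h := Classical.choose_spec (loc2 m (x p) (hx p))
  exact ⟨h.1, h.2.2.2⟩

/-- logarithm coefficients at prime powers -/
noncomputable def ba (m : ℕ) (x : ℕ → ℝ) (n : ℕ) : ℂ :=
  (∑ j, lr m x n.minFac j ^ (n.factorization n.minFac)) / (n.factorization n.minFac : ℂ)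

lemma ba_pow {p k : ℕ} (hp : p.Prime) (hk : k ≠ 0) : ba m x (p ^ k) = (∑ j, lr m x p j ^ k) / (k : ℂ) := by
  unfold ba
  rw [hp.pow_minFac hk, hp.factorization_pow, Finsupp.single_eq_same]

lemma norm_ba_le (hx : ∀ p, |x p| ≤ 1) {p k : ℕ} (hp : p.Prime) (hk : 1 ≤ k) :
    ‖ba m x (p ^ k)‖ ≤ 4 * m + 3 := by
  rw [ba_pow hp (by omega), norm_div, Complex.norm_natCast]
  have h1 : ‖∑ j, lr m x p j ^ k‖ ≤ 4 * m + 3 := by
    refine (norm_sum_le _ _).trans ?_
    have : ∀ j ∈ (univ : Finset (Fin (4 * m + 3))), ‖lr m x p j ^ k‖ ≤ 1 := by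
      intro j _
      rw [norm_pow, (lr_spec hx p).1 j, one_pow]
    refine (sum_le_sum this).trans ?_
    simp
  have h2 : (1 : ℝ) ≤ k := by exact_mod_cast hk
  exact (div_le_self (norm_nonneg _) h2).trans h1

lemma eulera (hx : ∀ p, |x p| ≤ 1) {s : ℂ} (hs : 1 < s.re) :
    HasProd (fun p : Nat.Primes =>
        Complex.exp (∑' k : ℕ, ba m x ((p : ℕ) ^ (k + 1)) *
          ((p : ℕ) : ℂ) ^ (-(((k + 1 : ℕ) : ℂ) * s))))
        (LSeries (fa m x) s) := by
  have hsum := fa_summable (m := m) hx hs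
  set g : ℕ → ℂ := LSeries.term (fa m x) s with hg
  have hg0 : g 0 = 0 := by rw [hg]; exact LSeries.term_zero _ _
  have hg1 : g 1 = 1 := by
    rw [hg, LSeries.term_of_ne_zero one_ne_zero]
    simp [fa, atc_one]
  have hgm : ∀ {a b : ℕ}, Nat.Coprime a b → g (a * b) = g a * g b := by
    intro a b hab
    rcases Nat.eq_zero_or_pos a with ha | ha
    · subst ha; rw [zero_mul, hg0, zero_mul]
    rcases Nat.eq_zero_or_pos b with hb | hb
    · subst hb; rw [mul_zero, hg0, mul_zero]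
    rw [hg, LSeries.term_of_ne_zero (Nat.mul_pos ha hb).ne', LSeries.term_of_ne_zero ha.ne',
      LSeries.term_of_ne_zero hb.ne']
    unfold fa
    rw [atc_mul hab]
    push_cast
    rw [Complex.natCast_mul_natCast_cpow]
    ring
  have hE := EulerProduct.eulerProduct_hasProd hg1 hgm (by exact hsum.norm) hg0
  have hL : (∑' n, g n) = LSeries (fa m x) s := rfl
  rw [hL] at hE
  convert hE using 1
  funext p
  have hp := p.2
  have hpos : (0 : ℝ) < (p : ℕ) := by exact_mod_cast hp.pos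
  have hpc : ((p : ℕ) : ℂ) ≠ 0 := by exact_mod_cast hp.ne_zero
  set z : ℂ := ((p : ℕ) : ℂ) ^ (-s) with hz
  have hzn : ‖z‖ < 1 := by
    have h2 : ‖z‖ = ((p : ℕ) : ℝ) ^ (-s.re) := by
      rw [hz, show ((p : ℕ) : ℂ) = (((p : ℕ) : ℝ) : ℂ) by push_cast; rfl,
        Complex.norm_cpow_eq_rpow_re_of_pos hpos, Complex.neg_re]
    rw [h2]
    exact Real.rpow_lt_one_of_one_lt_of_neg (by exact_mod_cast hp.one_lt) (by linarith)
  obtain ⟨hα, hα2⟩ := lr_spec (m := m) hx (p : ℕ)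
  have hpow : ∀ k : ℕ, ((p : ℕ) : ℂ) ^ (-((k : ℂ) * s)) = z ^ k := by
    intro k
    rw [hz, ← Complex.cpow_nat_mul]
    congr 1
    ring
  -- the local factor
  have hloc : (∑' e : ℕ, g ((p : ℕ) ^ e)) = (∏ j, (1 - lr m x p j * z))⁻¹ := by
    rw [← (hα2 z hzn).tsum_eq]
    congr 1
    funext e
    rw [hg, LSeries.term_of_ne_zero (pow_ne_zero _ hp.ne_zero)]
    unfold fa
    rw [atc_prime_pow hp, div_eq_mul_inv, ← Complex.cpow_neg]
    congr 1
    rw [← hpow e, Nat.cast_pow, ← Complex.natCast_cpow_natCast_mul]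
    congr 1
    ring
  rw [hloc]
  have hzj : ∀ j, ‖lr m x p j * z‖ < 1 := fun j => by rw [norm_mul, hα j, one_mul]; exact hzn
  have hlog : ∀ j, HasSum (fun k : ℕ => (lr m x p j * z) ^ (k + 1) / ((k + 1 : ℕ) : ℂ)) (-Complex.log (1 - lr m x p j * z)) := by
    intro j
    have h := Complex.hasSum_taylorSeries_neg_log (hzj j)
    rw [hasSum_nat_add_iff (f := fun n : ℕ => (lr m x p j * z) ^ n / (n : ℂ)) 1]
    simpa using h
  have hsumk : HasSum (fun k : ℕ => ba m x ((p : ℕ) ^ (k + 1)) *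
      ((p : ℕ) : ℂ) ^ (-(((k + 1 : ℕ) : ℂ) * s))) (∑ j, -Complex.log (1 - lr m x p j * z)) := by
    refine (hasSum_sum fun j _ => hlog j).congr_fun fun k => ?_
    rw [hpow (k + 1), ba_pow hp (show k + 1 ≠ 0 by omega), div_mul_eq_mul_div, sum_mul, sum_div]
    apply sum_congr rfl
    intro j _
    rw [mul_pow]
  rw [hsumk.tsum_eq, Complex.exp_sum, ← prod_inv_distrib]
  apply prod_congr rfl
  intro j _
  rw [Complex.exp_neg, Complex.exp_log]
  intro h0
  have h1 := hzj j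
  rw [← sub_eq_zero.1 h0, norm_one] at h1
  exact lt_irrefl _ h1

/-- logarithm coefficients, supported on the prime powers -/
noncomputable def bta (m : ℕ) (x : ℕ → ℝ) (n : ℕ) : ℂ := by
  classical exact if IsPrimePow n then ba m x n else 0

lemma bta_pow {p k : ℕ} (hp : p.Prime) : bta m x (p ^ (k + 1)) = ba m x (p ^ (k + 1)) := by
  unfold bta
  rw [if_pos]
  exact hp.isPrimePow.pow (by omega)

lemma bta_zero {n : ℕ} (hn : ¬ IsPrimePow n) : bta m x n = 0 := by
  unfold bta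
  rw [if_neg hn]

lemma norm_bta_le (hx : ∀ p, |x p| ≤ 1) (n : ℕ) : ‖bta m x n‖ ≤ 4 * m + 3 := by
  by_cases h : IsPrimePow n
  · unfold bta
    rw [if_pos h]
    obtain ⟨p, k, hp, hk, rfl⟩ := h
    exact norm_ba_le hx (Nat.prime_iff.2 hp) (by omega)
  · rw [bta_zero h, norm_zero]
    positivity

lemma exp_bta (hx : ∀ p, |x p| ≤ 1) {s : ℂ} (hs : 1 < s.re) :
    LSeries (fa m x) s = Complex.exp (LSeries (bta m x) s) := by
  have hE := eulera (m := m) hx hs
  have hsum : LSeriesSummable (bta m x) s :=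
    LSeriesSummable_of_bounded_of_one_lt_re (m := 4 * m + 3) (fun n _ => norm_bta_le hx n) hs
  have h1 : HasSum (LSeries.term (bta m x) s) (LSeries (bta m x) s) := hsum.hasSum
  have hsupp : Function.support (LSeries.term (bta m x) s) ⊆ {n | IsPrimePow n} := by
    intro n hn
    by_contra hcon
    apply hn
    rcases eq_or_ne n 0 with rfl | h0
    · exact LSeries.term_zero _ _
    · rw [LSeries.term_of_ne_zero h0, bta_zero hcon, zero_div]
  have h2 := (hasSum_subtype_iff_of_support_subset hsupp).2 h1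
  have h3 : HasSum ((LSeries.term (bta m x) s ∘ Subtype.val) ∘ Nat.Primes.prodNatEquiv)
      (LSeries (bta m x) s) := (Equiv.hasSum_iff Nat.Primes.prodNatEquiv).2 h2
  have hterm : ∀ (p : Nat.Primes) (k : ℕ),
      ((LSeries.term (bta m x) s ∘ Subtype.val) ∘ Nat.Primes.prodNatEquiv) (p, k) =
      ba m x ((p : ℕ) ^ (k + 1)) * ((p : ℕ) : ℂ) ^ (-(((k + 1 : ℕ) : ℂ) * s)) := by
    intro p k
    simp only [Function.comp_apply, Nat.Primes.coe_prodNatEquiv_apply]
    rw [LSeries.term_of_ne_zero (pow_ne_zero _ p.2.ne_zero), bta_pow p.2, Complex.cpow_neg,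
      Complex.natCast_cpow_natCast_mul, div_eq_mul_inv]
    push_cast
    rfl
  have h4 : HasSum (fun p : Nat.Primes => ∑' k : ℕ, ba m x ((p : ℕ) ^ (k + 1)) *
      ((p : ℕ) : ℂ) ^ (-(((k + 1 : ℕ) : ℂ) * s))) (LSeries (bta m x) s) := by
    apply h3.prod_fiberwise
    intro p
    have h5 : Summable (fun k : ℕ =>
        ((LSeries.term (bta m x) s ∘ Subtype.val) ∘ Nat.Primes.prodNatEquiv) (p, k)) :=
      h3.summable.prod_factor p
    have h6 := h5.hasSum
    simp only [hterm] at h6 ⊢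
    exact h6
  exact hE.unique h4.cexp

end

end Pool.Agent.Q237.ET
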