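import Mathlib
import Pool.Agent.Q127.ET.Spec
import Pool.Agent.H13R3.EM.Wrap
import Pool.Agent.Q237.ET.Eul

/-!
# Job ET5: the member of the Selberg class
-/

set_option autoImplicit false

open Finset MeasureTheory Metric Filter

namespace Pool.Agent.Q237.ET

open Pool.Agent.Q127.ET Pool.Agent.H469R10.HO Pool.Agent.H13R3.EM

lemma atc_eq {m : ℕ} {x α : ℕ → ℝ} (hα : ∀ n : ℕ, 1 ≤ n → α n = atc m x n * (n : ℝ) ^ (-kap m))
    {n : ℕ} (hn : 1 ≤ n) : atc m x n = α n * (n : ℝ) ^ kap m := by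
  have h : (0 : ℝ) < n := by exact_mod_cast hn
  rw [hα n hn, mul_assoc, ← Real.rpow_add h, neg_add_cancel, Real.rpow_zero, mul_one]

theorem FF_series' {m : ℕ} {c : ℝ} {x α : ℕ → ℝ} {Λ : ℂ → ℂ} (hc : 0 < c)
    (hα : ∀ n : ℕ, 1 ≤ n → α n = atc m x n * (n : ℝ) ^ (-kap m))
    {s : ℂ}
    (h : HasSum (fun n : ℕ => if n = 0 then 0 else
      ((α n * uu c (lamH m) n ^ (2 * m + 1) : ℝ) : ℂ) *
        ((uu c (lamH m) n : ℝ) : ℂ) ^ (-((lamH m : ℂ) * s + 1 / 4)))
      (Λ ((lamH m : ℂ) * s + 1 / 4) * (Complex.Gamma ((lamH m : ℂ) * s + 1 / 4))⁻¹)) :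
    FF m c Λ s = LSeries (fa m x) s := by
  have h2 := h.mul_left (Complex.exp ((Real.log c : ℂ) *
    ((lamH m : ℂ) * s + 1 / 4 - 2 * m - 1)))
  change HasSum _ (FF m c Λ s) at h2
  rw [← h2.tsum_eq]
  unfold LSeries
  congr 1
  funext n
  rcases Nat.eq_zero_or_pos n with h0 | h0
  · subst h0
    simp [LSeries.term_zero]
  · rw [if_neg h0.ne', LSeries.term_of_ne_zero h0.ne']
    have hn : (0 : ℝ) < n := by exact_mod_cast h0
    have hu := uu_pos (lam := lamH m) hc h0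
    have hl := lam_pos m
    have hlc : ((lamH m : ℝ) : ℂ) ≠ 0 := by exact_mod_cast hl.ne'
    unfold fa
    rw [atc_eq hα h0]
    have e1 : (uu c (lamH m) n) ^ (2 * m + 1) =
        Real.exp ((2 * m + 1) * (Real.log c + 1 / lamH m * Real.log n)) := by
      rw [← uu_log hc h0]
      conv_lhs => rw [← Real.exp_log hu]
      rw [← Real.exp_nat_mul]
      push_cast
      rfl
    have e2 : (n : ℝ) ^ kap m = Real.exp (Real.log n * kap m) := Real.rpow_def_of_pos hn _
    have e3 : ((n : ℕ) : ℂ) ^ s = Complex.exp ((Real.log n : ℂ) * s) := by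
      rw [show ((n : ℕ) : ℂ) = ((n : ℝ) : ℂ) by push_cast; rfl]
      exact pow_eq_exp hn s
    have e5 : ∀ a y : ℂ, a / Complex.exp y = a * Complex.exp (-y) := by
      intro a y; rw [Complex.exp_neg, div_eq_mul_inv]
    rw [pow_eq_exp hu, uu_log hc h0, e1, e2, e3, e5]
    push_cast
    have e4 : ∀ a b c' d e : ℂ, Complex.exp a * (b * Complex.exp c' * Complex.exp d) =
        b * Complex.exp (a + c' + d) := by
      intro a b c' d _
      rw [Complex.exp_add, Complex.exp_add]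
      ring
    rw [e4 _ _ _ _ 0, mul_assoc, ← Complex.exp_add]
    congr 2
    have hk : ((lamH m : ℝ) : ℂ) * ((kap m : ℝ) : ℂ) = 2 * m + 3 / 4 := by
      have := congrArg (fun x : ℝ => (x : ℂ)) (lam_kap m)
      push_cast at this
      exact this
    have hk2 : ((kap m : ℝ) : ℂ) = (2 * m + 3 / 4) / (lamH m : ℂ) := by
      rw [← hk]; field_simp
    rw [hk2]
    field_simp
    ring

/-- identity theorem -/
theorem FF_eq' {m : ℕ} {c : ℝ} {x : ℕ → ℝ} {Λ : ℂ → ℂ} (hΛ : Differentiable ℂ Λ)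
    (hx : ∀ p, |x p| ≤ 1)
    (h : ∀ s : ℂ, 2 < s.re → FF m c Λ s = LSeries (fa m x) s) {s : ℂ} (hs : 1 < s.re) :
    FF m c Λ s = LSeries (fa m x) s := by
  have hU : IsPreconnected {z : ℂ | 1 < z.re} := (convex_halfSpace_re_gt 1).isPreconnected
  have hab : LSeries.abscissaOfAbsConv (fa m x) ≤ 1 := by
    apply LSeries.abscissaOfAbsConv_le_of_forall_lt_LSeriesSummable'
    intro y hy
    apply fa_summable hx
    have h1 : (1 : ℝ) < y := by exact_mod_cast hy
    simpa using h1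
  have h1 : AnalyticOnNhd ℂ (FF m c Λ) {z : ℂ | 1 < z.re} := fun z _ =>
    (FF_diff hΛ).analyticAt z
  have h2 : AnalyticOnNhd ℂ (LSeries (fa m x)) {z : ℂ | 1 < z.re} := by
    apply (LSeries_analyticOnNhd (fa m x)).mono
    intro z hz
    refine lt_of_le_of_lt hab ?_
    exact_mod_cast hz
  have h3 : FF m c Λ =ᶠ[nhds (3 : ℂ)] LSeries (fa m x) := by
    have ho : IsOpen {z : ℂ | 2 < z.re} := isOpen_lt continuous_const Complex.continuous_re
    have hm : (3 : ℂ) ∈ {z : ℂ | 2 < z.re} := by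
      change (2 : ℝ) < (3 : ℂ).re
      norm_num
    filter_upwards [ho.mem_nhds hm] with z hz
    exact h z hz
  have h4 := h1.eqOn_of_preconnected_of_eventuallyEq h2 hU (z₀ := (3 : ℂ)) (by
    change (1 : ℝ) < (3 : ℂ).re
    norm_num) h3
  exact h4 hs

/-- JOB ET5 -/
theorem sel : S_Sel := by
  intro m c x α hm hc hx hα hsum hrel0
  have hF : Pool.Agent.H469R10.HO.TaskF := Pool.Agent.H144R3.T469F.taskF
  have hG : Pool.Agent.H469R10.HO.TaskG := Pool.Agent.H853R3.Bol.taskG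
  have hrel : ∀ x : ℝ, 0 < x → ∑' n, α n * Real.cos (uu c (lamH m) n * x) =
      1 * x ^ (2 * m) * ∑' n, α n * Real.cos (uu c (lamH m) n / x) := fun x hx => by
    rw [one_mul]; exact hrel0 x hx
  obtain ⟨σ, hσ1⟩ : ∃ σ : ℝ, σ = 1 := ⟨1, rfl⟩
  have hσ : σ = 1 ∨ σ = -1 := Or.inl hσ1
  rw [← hσ1] at hrel
  have hl := lam_pos m
  have hl1 := lam_ge m
  -- the theta relation
  have hrel2 := hG m hm α (uu c (lamH m)) hsum (uu_zero hl) (fun n hn => uu_pos hc hn) σ hσ hrel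
  obtain ⟨ε, hε⟩ : ∃ ε : ℝ, ε = (-1) ^ (m + 1) * σ := ⟨_, rfl⟩
  have hε1 : ε = 1 ∨ ε = -1 := by
    rw [hε]
    rcases neg_one_pow_eq_or ℝ (m + 1) with h | h <;> rcases hσ with h' | h' <;> rw [h, h'] <;> norm_num
  have hεε : ε * ε = 1 := by
    rcases hε1 with h | h <;> rw [h] <;> norm_num
  obtain ⟨Λ, hΛd, hΛfe, hΛc, hΛs, C, hΛg⟩ := hF c (lamH m) (2 * m + 2) hc (by linarith)
    (by have : (0 : ℝ) ≤ m := Nat.cast_nonneg m
        linarith)
    (fun n => α n * uu c (lamH m) n ^ (2 * m + 1))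
    (by rw [uu_zero hl]; simp)
    (by
      refine Summable.of_nonneg_of_le (fun n => by
        apply mul_nonneg (abs_nonneg _)
        apply Real.rpow_nonneg
        rcases Nat.eq_zero_or_pos n with h | h
        · rw [h, uu_zero hl]
        · exact (uu_pos hc h).le) (fun n => ?_) hsum
      rcases Nat.eq_zero_or_pos n with h | h
      · subst h
        rw [uu_zero hl]
        simp
      · have hu := uu_pos (lam := lamH m) hc h
        rw [abs_mul, abs_of_pos (pow_pos hu _), mul_assoc, ← Real.rpow_natCast,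
          ← Real.rpow_add hu]
        have : ((2 * m + 1 : ℕ) : ℝ) + -((2 * (m : ℝ) + 2) - 1) = 0 := by push_cast; ring
        rw [this, Real.rpow_zero, mul_one])
    ε hε1
    (by
      intro t ht
      have h1 := hrel2 t ht
      rw [hε]
      have h2 : t ^ (2 * (m : ℝ) + 2) = t ^ (2 * m + 2) := by
        rw [← Real.rpow_natCast]
        push_cast
        rfl
      rw [h2]
      exact h1)
  have hFser : ∀ s : ℂ, 2 < s.re → FF m c Λ s = LSeries (fa m x) s := by
    intro s hs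
    apply FF_series' hc hα
    apply hΛs
    have hm0 : (0 : ℝ) ≤ m := Nat.cast_nonneg m
    have h1 : (((lamH m : ℝ) : ℂ) * s + 1 / 4).re = lamH m * s.re + 1 / 4 := by
      simp
    rw [h1]
    have h2 : lamH m * 2 ≤ lamH m * s.re := by
      apply mul_le_mul_of_nonneg_left hs.le hl.le
    have h3 : lamH m = 2 * m + 3 / 2 := rfl
    nlinarith
  obtain ⟨ρ, C', hgr⟩ := FF_growth (m := m) (c := c) hΛg

  refine ⟨Sel.mk (fa m x) 0 (FF m c Λ) 1 (Real.exp (-(lamH m * Real.log c))) (fun _ => lamH m)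
    (fun _ => 1 / 4) (ε : ℂ) (bta m x) ?_ ?_ (FF_diff hΛd) ⟨ρ, C', hgr⟩ ?_ (Real.exp_pos _) (fun _ => hl)
    (fun _ => by norm_num) ?_ ?_ (fun n hn => bta_zero hn) ⟨0, by norm_num, 4 * m + 3, ?_⟩ ?_, rfl, ?_, fun n => rfl, ?_, rfl, rfl, ?_,
    fun _ => ⟨rfl, rfl⟩⟩
  · unfold fa
    rw [atc_one]
    simp
  · intro e he
    obtain ⟨C, _, hC⟩ := fa_ram (m := m) hx he
    exact ⟨C, hC⟩
  · intro s hs
    rw [pow_zero, one_mul]
    exact FF_eq' hΛd hx hFser hs
  · rcases hε1 with h | h <;> rw [h] <;> simp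
  · intro s _ _ hs1 hs2
    have g1 := FF_completed (m := m) (c := c) (Λ := Λ) (s := s) (hs1 0)
    have g2 := FF_completed (m := m) (c := c) (Λ := Λ) (s := 1 - starRingEnd ℂ s) (hs2 0)
    simp only [pow_zero, div_one, Finset.univ_unique, Finset.prod_singleton]
    have g1' : ((Real.exp (-(lamH m * Real.log c)) : ℝ) : ℂ) ^ s *
        Complex.Gamma (((lamH m : ℝ) : ℂ) * s + 1 / 4) * FF m c Λ s =
        ((Real.exp (Real.log c * (1 / 4 - 2 * m - 1)) : ℝ) : ℂ) *
        Λ (((lamH m : ℝ) : ℂ) * s + 1 / 4) := by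
      rw [← g1]; ring
    have g2' : ((Real.exp (-(lamH m * Real.log c)) : ℝ) : ℂ) ^ (1 - starRingEnd ℂ s) *
        Complex.Gamma (((lamH m : ℝ) : ℂ) * (1 - starRingEnd ℂ s) + 1 / 4) *
        FF m c Λ (1 - starRingEnd ℂ s) =
        ((Real.exp (Real.log c * (1 / 4 - 2 * m - 1)) : ℝ) : ℂ) *
        Λ (((lamH m : ℝ) : ℂ) * (1 - starRingEnd ℂ s) + 1 / 4) := by
      rw [← g2]; ring
    rw [g1', g2', map_mul, Complex.conj_ofReal, ← hΛc]
    have h3 : starRingEnd ℂ (((lamH m : ℝ) : ℂ) * (1 - starRingEnd ℂ s) + 1 / 4) =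
        (((2 * (m : ℝ) + 2 : ℝ)) : ℂ) - (((lamH m : ℝ) : ℂ) * s + 1 / 4) := by
      rw [map_add, map_mul, map_sub, map_one, Complex.conj_conj, Complex.conj_ofReal, map_div₀,
        map_one]
      have h4 : starRingEnd ℂ (4 : ℂ) = 4 := Complex.conj_ofNat 4
      rw [h4]
      unfold lamH
      push_cast
      ring
    rw [h3, hΛfe]
    have h5 : (ε : ℂ) * ε = 1 := by exact_mod_cast hεε
    linear_combination (-((Real.exp (Real.log c * (1 / 4 - 2 * m - 1)) : ℝ) : ℂ) *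
      Λ (((lamH m : ℝ) : ℂ) * s + 1 / 4)) * h5
  · intro n _
    rw [Real.rpow_zero, mul_one]
    exact norm_bta_le hx n
  · intro s hs
    exact ⟨LSeriesSummable_of_bounded_of_one_lt_re (m := 4 * m + 3) (fun n _ => norm_bta_le hx n) hs, exp_bta hx hs⟩
  · unfold Sel.deg
    simp only [Finset.univ_unique, Finset.sum_const, Finset.card_singleton, one_smul]
    unfold lamH
    push_cast
    ring
  · intro j n s hs h
    have h1 := congrArg Complex.im h
    have h2 : (((lamH m : ℝ) : ℂ) * s + 1 / 4).im = lamH m * s.im := by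
      rw [Complex.add_im, Complex.im_ofReal_mul]
      simp
    have h3 : (-(n : ℂ)).im = 0 := by simp
    rw [h3] at h1
    have h4 : lamH m * s.im = 0 := by rw [← h2]; exact h1
    rcases mul_eq_zero.1 h4 with h5 | h5
    · exact hl.ne' h5
    · exact hs h5
  · show (ε : ℂ) = (-1) ^ (m + 1)
    rw [hε, hσ1]
    push_cast
    ring

end Pool.Agent.Q237.ET
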